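import Pool.Agent.Helper44.BB.Stmts

set_option autoImplicit false

/-! # (BND) trivial bounds -/

namespace Pool.Agent.Helper83.BB

open Finset Pool.Agent.Helper44.BB

theorem bnd_card_log {n : ℕ} (hn : Squarefree n) :
    (n.primeFactors.card : ℝ) * Real.log 2 ≤ Real.log n := by
  have h1 : 2 ^ n.primeFactors.card ≤ n := by
    have h2 : 2 ^ n.primeFactors.card ≤ ∏ p ∈ n.primeFactors, p :=
      Finset.pow_card_le_prod _ _ _ fun p hp => (Nat.prime_of_mem_primeFactors hp).two_le
    rwa [Nat.prod_primeFactors_of_squarefree hn] at h2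
  have h3 : ((2 : ℝ) ^ n.primeFactors.card) ≤ n := by exact_mod_cast h1
  have h4 := Real.log_le_log (by positivity) h3
  rwa [Real.log_pow] at h4

theorem bnd_dl (n : ℕ) : dl n ≤ (n.primeFactors.card : ℝ) / 2 := by
  unfold dl
  have h : ∑ q ∈ n.primeFactors, 1 / (q : ℝ) ≤ ∑ _q ∈ n.primeFactors, (1 / 2 : ℝ) := by
    refine Finset.sum_le_sum fun q hq => ?_
    have h2 : (2 : ℝ) ≤ q := by exact_mod_cast (Nat.prime_of_mem_primeFactors hq).two_le
    exact one_div_le_one_div_of_le (by norm_num) h2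
  rw [Finset.sum_const, nsmul_eq_mul] at h
  linarith

theorem st_BND : ST_BND := by
  intro a b x hc hax hL
  have ha0 : 0 < a := hc.sa.ne_zero.bot_lt
  have hb0 : 0 < b := hc.sb.ne_zero.bot_lt
  have ha0' : (0 : ℝ) < a := Nat.cast_pos.2 ha0
  have hb0' : (0 : ℝ) < b := Nat.cast_pos.2 hb0
  have hx : 0 < x := lt_of_lt_of_le ha0' hax
  have hl2 : (0.6931471803 : ℝ) < Real.log 2 := Real.log_two_gt_d9
  have hla : Real.log a ≤ Real.log x := Real.log_le_log ha0' hax
  have h1 := bnd_card_log hc.sa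
  have h2 := bnd_dl a
  have hca : (0 : ℝ) ≤ (a.primeFactors.card : ℝ) := Nat.cast_nonneg _
  have hcb : (0 : ℝ) ≤ (b.primeFactors.card : ℝ) := Nat.cast_nonneg _
  have h3 : (a.primeFactors.card : ℝ) * 0.69 ≤ Real.log x := by nlinarith
  have h4 : dl a ≤ Real.log x := by linarith
  have h5 : (b : ℝ) = a * dl a := by rw [← D_cast, hc.ab]
  have h6 : (b : ℝ) ≤ x * Real.log x := by
    rw [h5]
    exact mul_le_mul hax h4 (dl_nonneg a) hx.le
  have h7 : Real.log b ≤ 2 * Real.log x := by
    have h8 := Real.log_le_log hb0' h6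
    rw [Real.log_mul hx.ne' (by linarith)] at h8
    have h9 := Real.log_le_sub_one_of_pos (show (0 : ℝ) < Real.log x by linarith)
    linarith
  have h8 := bnd_card_log hc.sb
  have h9 := bnd_dl b
  have h10 : (b.primeFactors.card : ℝ) * 0.69 ≤ 2 * Real.log x := by nlinarith
  exact ⟨by linarith, by linarith, h4, by linarith, h6⟩

end Pool.Agent.Helper83.BB
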