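import Mathlib

set_option autoImplicit false

open Set Filter Topology

namespace Pool.Agent.Helper83.BB

/-- The compact sets attached to a sequence of bounds. -/
def KK {X : Type} [MetricSpace X] (u : ℕ → X) (a : ℕ → ℕ) : Set X :=
  {x | ∀ m, ∃ k, k ≤ a m ∧ dist x (u k) ≤ (1 / 2 : ℝ) ^ m}

theorem isClosed_level {X : Type} [MetricSpace X] (u : ℕ → X) (m c : ℕ) :
    IsClosed {x : X | ∃ k, k ≤ c ∧ dist x (u k) ≤ (1 / 2 : ℝ) ^ m} := by
  have h : {x : X | ∃ k, k ≤ c ∧ dist x (u k) ≤ (1 / 2 : ℝ) ^ m}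
      = ⋃ k ∈ Set.Iic c, Metric.closedBall (u k) ((1 / 2 : ℝ) ^ m) := by
    ext x
    simp [Metric.mem_closedBall]
  rw [h]
  exact (Set.finite_Iic c).isClosed_biUnion fun k _ => Metric.isClosed_closedBall

theorem isClosed_KK {X : Type} [MetricSpace X] (u : ℕ → X) (a : ℕ → ℕ) : IsClosed (KK u a) := by
  have h : KK u a = ⋂ m, {x : X | ∃ k, k ≤ a m ∧ dist x (u k) ≤ (1 / 2 : ℝ) ^ m} := by
    ext x
    simp [KK]
  rw [h]
  exact isClosed_iInter fun m => isClosed_level u m (a m)

theorem isCompact_KK {X : Type} [MetricSpace X] [CompleteSpace X] (u : ℕ → X) (a : ℕ → ℕ) :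
    IsCompact (KK u a) := by
  refine TotallyBounded.isCompact_of_isClosed ?_ (isClosed_KK u a)
  rw [Metric.totallyBounded_iff]
  intro ε hε
  obtain ⟨m, hm⟩ := exists_pow_lt_of_lt_one hε (by norm_num : (1 / 2 : ℝ) < 1)
  refine ⟨u '' Set.Iic (a m), (Set.finite_Iic _).image _, ?_⟩
  intro x hx
  obtain ⟨k, hk, hd⟩ := hx m
  simp only [mem_iUnion, exists_prop]
  exact ⟨u k, ⟨k, hk, rfl⟩, Metric.mem_ball.2 (lt_of_le_of_lt hd hm)⟩

theorem KK_mono {X : Type} [MetricSpace X] (u : ℕ → X) {a b : ℕ → ℕ} (h : ∀ m, a m ≤ b m) :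
    KK u a ⊆ KK u b := by
  intro x hx m
  obtain ⟨k, hk, hd⟩ := hx m
  exact ⟨k, hk.trans (h m), hd⟩

theorem KK_limit {X : Type} [MetricSpace X] (u : ℕ → X) {a : ℕ → ℕ} {c : ℕ → ℕ → ℕ} {x : X}
    {z : ℕ → X} (hc : Tendsto c atTop (𝓝 a)) (hz : Tendsto z atTop (𝓝 x))
    (h : ∀ i, z i ∈ KK u (c i)) : x ∈ KK u a := by
  intro m
  have hm : Tendsto (fun i => c i m) atTop (𝓝 (a m)) := (tendsto_pi_nhds.1 hc) m
  have hev : ∀ᶠ i in atTop, c i m = a m := by
    have := hm (isOpen_discrete {a m} |>.mem_nhds rfl)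
    exact this
  exact (isClosed_level u m (a m)).mem_of_tendsto hz (hev.mono fun i hi => by
    have := h i m
    rw [hi] at this
    exact this)

theorem exists_bound {a : ℕ → ℕ} {c : ℕ → ℕ → ℕ} (hc : Tendsto c atTop (𝓝 a)) :
    ∃ b : ℕ → ℕ, ∀ i m, c i m ≤ b m := by
  have h : ∀ m, BddAbove (Set.range fun i => c i m) := fun m =>
    ((tendsto_pi_nhds.1 hc) m).bddAbove_range
  choose b hb using h
  exact ⟨b, fun i m => hb m ⟨i, rfl⟩⟩

/-- The set of pairs of bounds whose box lies in an open set is open. -/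
theorem isOpen_box {X Y : Type} [MetricSpace X] [CompleteSpace X] [MetricSpace Y] [CompleteSpace Y]
    (u : ℕ → X) (v : ℕ → Y) (U : Set (X × Y)) (hU : IsOpen U) :
    IsOpen {p : (ℕ → ℕ) × (ℕ → ℕ) | KK u p.1 ×ˢ KK v p.2 ⊆ U} := by
  rw [← isClosed_compl_iff]
  apply IsSeqClosed.isClosed
  intro c p hcc hcp
  have hz : ∀ i, ∃ z : X × Y, z ∈ KK u (c i).1 ×ˢ KK v (c i).2 ∧ z ∉ U := by
    intro i
    have := hcc i
    simp only [mem_compl_iff, mem_ofPred_eq, Set.not_subset] at this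
    obtain ⟨z, hz, hzU⟩ := this
    exact ⟨z, hz, hzU⟩
  choose z hz hzU using hz
  have h1 : Tendsto (fun i => (c i).1) atTop (𝓝 p.1) := (continuous_fst.tendsto p).comp hcp
  have h2 : Tendsto (fun i => (c i).2) atTop (𝓝 p.2) := (continuous_snd.tendsto p).comp hcp
  obtain ⟨b1, hb1⟩ := exists_bound h1
  obtain ⟨b2, hb2⟩ := exists_bound h2
  have hzK : ∀ i, z i ∈ KK u b1 ×ˢ KK v b2 := fun i =>
    ⟨KK_mono u (hb1 i) (hz i).1, KK_mono v (hb2 i) (hz i).2⟩
  obtain ⟨w, -, φ, hφ, hlim⟩ :=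
    ((isCompact_KK u b1).prod (isCompact_KK v b2)).tendsto_subseq hzK
  have hwU : w ∉ U := by
    have : IsClosed Uᶜ := hU.isClosed_compl
    exact this.mem_of_tendsto hlim (Eventually.of_forall fun i => hzU (φ i))
  have hφ' : Tendsto φ atTop atTop := hφ.tendsto_atTop
  have hw1 : w.1 ∈ KK u p.1 :=
    KK_limit u (h1.comp hφ') ((continuous_fst.tendsto w).comp hlim) fun i => (hz (φ i)).1
  have hw2 : w.2 ∈ KK v p.2 :=
    KK_limit v (h2.comp hφ') ((continuous_snd.tendsto w).comp hlim) fun i => (hz (φ i)).2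
  simp only [mem_compl_iff, mem_ofPred_eq]
  intro hsub
  exact hwU (hsub ⟨hw1, hw2⟩)

/-- The code of a point: the first elements of a dense sequence close to it. -/
theorem exists_code {X : Type} [MetricSpace X] [SecondCountableTopology X] [MeasurableSpace X]
    [OpensMeasurableSpace X] [Nonempty X] :
    ∃ (u : ℕ → X) (w : X → ℕ → ℕ), Measurable w ∧ ∀ x, x ∈ KK u (w x) := by
  classical
  have hex : ∀ (m : ℕ) (x : X), ∃ k, dist x (TopologicalSpace.denseSeq X k) ≤ (1 / 2 : ℝ) ^ m := by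
    intro m x
    have hpos : (0 : ℝ) < (1 / 2 : ℝ) ^ m := by positivity
    obtain ⟨y, hy, k, rfl⟩ := (TopologicalSpace.denseRange_denseSeq X).exists_dist_lt x hpos |>.elim
      fun k hk => (⟨TopologicalSpace.denseSeq X k, hk, k, rfl⟩ :
        ∃ y, dist x y < (1 / 2 : ℝ) ^ m ∧ ∃ k, TopologicalSpace.denseSeq X k = y)
    exact ⟨k, hy.le⟩
  refine ⟨TopologicalSpace.denseSeq X, fun x m => Nat.find (hex m x), ?_, ?_⟩
  · refine measurable_pi_iff.2 fun m => ?_
    refine measurable_find (hex m) fun k => ?_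
    exact measurableSet_le (measurable_id.dist measurable_const) measurable_const
  · intro x m
    exact ⟨Nat.find (hex m x), le_rfl, Nat.find_spec (hex m x)⟩

/-- Countably many measurable sets become open in a suitable complete metric. -/
theorem exists_metric {X : Type} [mX : MeasurableSpace X] [StandardBorelSpace X] (A : ℕ → Set X)
    (hA : ∀ i, MeasurableSet (A i)) :
    ∃ _ : MetricSpace X, CompleteSpace X ∧ SecondCountableTopology X ∧ BorelSpace X ∧
      ∀ i, IsOpen (A i) := by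
  classical
  let _ := upgradeStandardBorel X
  let f : X → ℕ → ℕ := fun x i => if x ∈ A i then 1 else 0
  have hf : Measurable f := measurable_pi_iff.2 fun i =>
    Measurable.ite (hA i) measurable_const measurable_const
  obtain ⟨t', hle, hcont, hpol⟩ := hf.exists_continuous
  have hborel : @BorelSpace X t' mX := by
    constructor
    rw [eq_borel_upgradeStandardBorel X, MeasureTheory.borel_eq_borel_of_le hpol _ hle]
    infer_instance
  letI : TopologicalSpace X := t'
  letI := @TopologicalSpace.upgradeIsCompletelyMetrizable X t' hpol.toIsCompletelyMetrizableSpace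
  refine ⟨inferInstance, inferInstance, ?_, ?_, ?_⟩
  · exact hpol.toSecondCountableTopology
  · exact hborel
  · intro i
    have : A i = f ⁻¹' {g | g i = 1} := by
      ext x
      simp only [f, mem_preimage, mem_ofPred_eq]
      by_cases hx : x ∈ A i <;> simp [hx]
    rw [this]
    apply IsOpen.preimage hcont
    have : {g : ℕ → ℕ | g i = 1} = (fun g : ℕ → ℕ => g i) ⁻¹' {1} := rfl
    rw [this]
    exact (isOpen_discrete _).preimage (continuous_apply i)

end Pool.Agent.Helper83.BB
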