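import Pool.Agent.Helper83.BB.Code

set_option autoImplicit false

open Set Filter Topology

namespace Pool.Agent.Helper83.BB

/-- Eventually equal sequences become equal after a maximum with a large constant. -/
theorem eventually_max_eq {a a' : ℕ → ℕ} (h : ∀ᶠ i in atTop, a i = a' i) :
    ∀ᶠ n in atTop, (fun i => max (a i) n) = fun i => max (a' i) n := by
  obtain ⟨i0, hi0⟩ := eventually_atTop.1 h
  filter_upwards [eventually_ge_atTop (∑ i ∈ Finset.range i0, (a i + a' i))] with n hn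
  funext i
  by_cases hi : i0 ≤ i
  · rw [hi0 i hi]
  · have hle : a i + a' i ≤ ∑ i ∈ Finset.range i0, (a i + a' i) :=
      Finset.single_le_sum (f := fun i => a i + a' i) (fun _ _ => Nat.zero_le _)
        (Finset.mem_range.2 (not_le.1 hi))
    have h1 : a i ≤ n := by omega
    have h2 : a' i ≤ n := by omega
    rw [max_eq_right h1, max_eq_right h2]

/-- An eventual bound becomes a bound after a maximum with a large constant. -/
theorem eventually_le_max {w a : ℕ → ℕ} (h : ∀ᶠ i in atTop, w i ≤ a i) :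
    ∀ᶠ n in atTop, ∀ i, w i ≤ max (a i) n := by
  obtain ⟨i0, hi0⟩ := eventually_atTop.1 h
  filter_upwards [eventually_ge_atTop (∑ i ∈ Finset.range i0, w i)] with n hn
  intro i
  by_cases hi : i0 ≤ i
  · exact le_max_of_le_left (hi0 i hi)
  · have hle : w i ≤ ∑ i ∈ Finset.range i0, w i :=
      Finset.single_le_sum (f := fun i => w i) (fun _ _ => Nat.zero_le _)
        (Finset.mem_range.2 (not_le.1 hi))
    exact le_max_of_le_right (hle.trans hn)

theorem measurable_max_const {X : Type} [MeasurableSpace X] {a : X → ℕ → ℕ} (ha : Measurable a)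
    (n : ℕ) : Measurable fun x => fun i => max (a x i) n :=
  measurable_pi_iff.2 fun i => ((measurable_pi_iff.1 ha) i).max measurable_const

theorem main {X Y : Type} [MeasurableSpace X] [StandardBorelSpace X] [MeasurableSpace Y]
    [StandardBorelSpace Y] (E : X → X → Prop) (F : Y → Y → Prop)
    (hE : ∀ f : X → ℕ → ℕ, Measurable f → ∃ g : X → ℕ → ℕ, Measurable g ∧
      (∀ x : X, ∀ᶠ n in atTop, f x n ≤ g x n) ∧
      (∀ x y : X, E x y → ∀ᶠ n in atTop, g x n = g y n))
    (hF : ∀ f : Y → ℕ → ℕ, Measurable f → ∃ g : Y → ℕ → ℕ, Measurable g ∧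
      (∀ y : Y, ∀ᶠ n in atTop, f y n ≤ g y n) ∧
      (∀ y z : Y, F y z → ∀ᶠ n in atTop, g y n = g z n))
    (f : X × Y → ℕ → ℕ)
    (hf : ∀ n : ℕ, ∃ (A : ℕ → Set X) (B : ℕ → Set Y),
      (∀ j, MeasurableSet (A j)) ∧ (∀ j, MeasurableSet (B j)) ∧
      (∀ p : X × Y, ∃ j, p.1 ∈ A j ∧ p.2 ∈ B j) ∧
      (∀ j, ∃ k : ℕ, ∀ p : X × Y, p.1 ∈ A j → p.2 ∈ B j → f p n ≤ k)) :
    ∃ g : X × Y → ℕ → ℕ, Measurable g ∧
      (∀ p : X × Y, ∀ᶠ n in atTop, f p n ≤ g p n) ∧
      (∀ p q : X × Y, (E p.1 q.1 ∧ F p.2 q.2) → ∀ᶠ n in atTop, g p n = g q n) := by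
  classical
  rcases isEmpty_or_nonempty X with hX | hX
  · exact ⟨fun _ _ => 0, measurable_const, fun p => (hX.false p.1).elim,
      fun p => (hX.false p.1).elim⟩
  rcases isEmpty_or_nonempty Y with hY | hY
  · exact ⟨fun _ _ => 0, measurable_const, fun p => (hY.false p.2).elim,
      fun p => (hY.false p.2).elim⟩
  choose A B hA hB hcov hbd using hf
  choose k hk using hbd
  obtain ⟨mX, _, _, _, hAo⟩ := exists_metric (fun i : ℕ => A i.unpair.1 i.unpair.2)
    (fun i => hA _ _)
  obtain ⟨mY, _, _, _, hBo⟩ := exists_metric (fun i : ℕ => B i.unpair.1 i.unpair.2)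
    (fun i => hB _ _)
  have hAo' : ∀ n j, IsOpen (A n j) := fun n j => by
    have := hAo (Nat.pair n j)
    simpa [Nat.unpair_pair] using this
  have hBo' : ∀ n j, IsOpen (B n j) := fun n j => by
    have := hBo (Nat.pair n j)
    simpa [Nat.unpair_pair] using this
  obtain ⟨u, wX, hwX, hKX⟩ := exists_code (X := X)
  obtain ⟨v, wY, hwY, hKY⟩ := exists_code (X := Y)
  obtain ⟨a, ha, haw, haE⟩ := hE wX hwX
  obtain ⟨b, hb, hbw, hbF⟩ := hF wY hwY
  -- the open sets exhausting the product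
  let V : ℕ → ℕ → Set (X × Y) := fun n J => ⋃ j ∈ Set.Iic J, A n j ×ˢ B n j
  have hVo : ∀ n J, IsOpen (V n J) := fun n J =>
    isOpen_biUnion fun j _ => (hAo' n j).prod (hBo' n j)
  have hVmono : ∀ n, Monotone (V n) := by
    intro n I J hIJ
    refine iUnion₂_subset fun j hj => ?_
    exact subset_iUnion₂_of_subset j (le_trans hj hIJ) le_rfl
  have hVcov : ∀ n, ⋃ J, V n J = univ := by
    intro n
    refine eq_univ_of_forall fun p => ?_
    obtain ⟨j, hj1, hj2⟩ := hcov n p
    exact mem_iUnion.2 ⟨j, mem_iUnion₂.2 ⟨j, Set.mem_Iic.2 le_rfl, ⟨hj1, hj2⟩⟩⟩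
  have hcomp : ∀ (n : ℕ) (c : ℕ → ℕ) (d : ℕ → ℕ), ∃ J, KK u c ×ˢ KK v d ⊆ V n J := by
    intro n c d
    have hK : IsCompact (KK u c ×ˢ KK v d) := (isCompact_KK u c).prod (isCompact_KK v d)
    exact hK.elim_directed_cover (V n) (hVo n) (by rw [hVcov n]; exact subset_univ _)
      (hVmono n).directed_le
  let P : ℕ → X × Y → ℕ → Prop := fun n p J =>
    KK u (fun i => max (a p.1 i) n) ×ˢ KK v (fun i => max (b p.2 i) n) ⊆ V n J
  have hP : ∀ n p, ∃ J, P n p J := fun n p => hcomp n _ _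
  let g : X × Y → ℕ → ℕ := fun p n =>
    (Finset.range (Nat.find (hP n p) + 1)).sup (k n)
  refine ⟨g, ?_, ?_, ?_⟩
  · refine measurable_pi_iff.2 fun n => ?_
    have h1 : Measurable fun p : X × Y => Nat.find (hP n p) := by
      refine measurable_find (hP n) fun J => ?_
      have ho := (isOpen_box u v (V n J) (hVo n J)).measurableSet
      have hm : Measurable fun p : X × Y =>
          ((fun i => max (a p.1 i) n, fun i => max (b p.2 i) n) : (ℕ → ℕ) × (ℕ → ℕ)) :=
        ((measurable_max_const ha n).comp measurable_fst).prodMk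
          ((measurable_max_const hb n).comp measurable_snd)
      exact hm ho
    exact (measurable_from_top (f := fun J : ℕ => (Finset.range (J + 1)).sup (k n))).comp h1
  · intro p
    filter_upwards [eventually_le_max (haw p.1), eventually_le_max (hbw p.2)] with n h1 h2
    have hx : p.1 ∈ KK u (fun i => max (a p.1 i) n) := KK_mono u h1 (hKX p.1)
    have hy : p.2 ∈ KK v (fun i => max (b p.2 i) n) := KK_mono v h2 (hKY p.2)
    have hmem : p ∈ V n (Nat.find (hP n p)) := Nat.find_spec (hP n p) ⟨hx, hy⟩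
    obtain ⟨j, hj, hj1, hj2⟩ := mem_iUnion₂.1 hmem
    refine (hk n j p hj1 hj2).trans ?_
    exact Finset.le_sup (f := k n) (Finset.mem_range.2 (Nat.lt_succ_of_le hj))
  · rintro p q ⟨h1, h2⟩
    filter_upwards [eventually_max_eq (haE _ _ h1), eventually_max_eq (hbF _ _ h2)] with n e1 e2
    have : P n p = P n q := by
      funext J
      simp only [P]
      rw [e1, e2]
    simp only [g]
    congr 3
    exact Nat.find_congr' (fun {J} => by rw [this])

end Pool.Agent.Helper83.BB
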