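import Mathlib

set_option autoImplicit false

open Set Filter Topology MeasureTheory

namespace Pool.Agent.Helper83.BB

/-- A sequence of sets is contained in a sequence of measurable sets with empty intersection. -/
def Sep {Z : Type} [MeasurableSpace Z] (S : ℕ → Set Z) : Prop :=
  ∃ B : ℕ → Set Z, (∀ i, MeasurableSet (B i)) ∧ (∀ i, S i ⊆ B i) ∧ ⋂ i, B i = ∅

theorem Sep.mono {Z : Type} [MeasurableSpace Z] {S T : ℕ → Set Z} (h : Sep T)
    (hST : ∀ i, S i ⊆ T i) : Sep S := by
  obtain ⟨B, hB, hT, hI⟩ := h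
  exact ⟨B, hB, fun i => (hST i).trans (hT i), hI⟩

theorem Sep.union {Z : Type} [MeasurableSpace Z] (S : ℕ → Set Z) (i0 : ℕ) (P : ℕ → Set Z)
    (hP : S i0 ⊆ ⋃ d, P d) (h : ∀ d, Sep (Function.update S i0 (P d))) : Sep S := by
  classical
  choose B hB hS hI using h
  refine ⟨fun i => if i = i0 then ⋃ d, B d i0 else ⋂ d, B d i, ?_, ?_, ?_⟩
  · intro i
    by_cases hi : i = i0
    · simp only [hi, if_true]
      exact MeasurableSet.iUnion fun d => hB d i0
    · simp only [hi, if_false]
      exact MeasurableSet.iInter fun d => hB d i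
  · intro i
    by_cases hi : i = i0
    · simp only [hi, if_true]
      refine hP.trans (iUnion_mono fun d => ?_)
      have := hS d i0
      rwa [Function.update_self] at this
    · simp only [hi, if_false]
      refine subset_iInter fun d => ?_
      have := hS d i
      rwa [Function.update_of_ne hi] at this
  · apply eq_empty_of_forall_notMem
    intro z hz
    rw [mem_iInter] at hz
    have h0 := hz i0
    simp only [if_true, mem_iUnion] at h0
    obtain ⟨d, hd⟩ := h0
    have : z ∈ ⋂ i, B d i := by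
      rw [mem_iInter]
      intro i
      by_cases hi : i = i0
      · rw [hi]; exact hd
      · have h1 := hz i
        simp only [hi, if_false, mem_iInter] at h1
        exact h1 d
    rw [hI d] at this
    exact this

/-- Sequences agreeing with the `i`-th row of `α` on the entries numbered below `m`. -/
def Cyl (α : ℕ → ℕ) (m i : ℕ) : Set (ℕ → ℕ) :=
  {β | ∀ t, Nat.pair i t < m → β t = α (Nat.pair i t)}

theorem Cyl_congr {α α' : ℕ → ℕ} {m : ℕ} (h : ∀ t, t < m → α t = α' t) (i : ℕ) :
    Cyl α m i = Cyl α' m i := by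
  ext β
  simp only [Cyl, mem_ofPred_eq]
  exact forall_congr' fun t => forall_congr' fun ht => by rw [h _ ht]

theorem Cyl_step_ne {α : ℕ → ℕ} {m i d : ℕ} (hi : i ≠ m.unpair.1) :
    Cyl (Function.update α m d) (m + 1) i = Cyl α m i := by
  ext β
  simp only [Cyl, mem_ofPred_eq]
  have hne : ∀ t, Nat.pair i t ≠ m := by
    intro t ht
    apply hi
    rw [← ht, Nat.unpair_pair]
  constructor
  · intro h t ht
    have := h t (ht.trans (Nat.lt_succ_self m))
    rwa [Function.update_of_ne (hne t)] at this
  · intro h t ht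
    rw [Function.update_of_ne (hne t)]
    exact h t (lt_of_le_of_ne (Nat.lt_succ_iff.1 ht) (hne t))

theorem Cyl_step_eq {α : ℕ → ℕ} {m : ℕ} :
    Cyl α m m.unpair.1 ⊆ ⋃ d, Cyl (Function.update α m d) (m + 1) m.unpair.1 := by
  intro β hβ
  rw [mem_iUnion]
  refine ⟨β m.unpair.2, ?_⟩
  intro t ht
  by_cases h : Nat.pair m.unpair.1 t = m
  · rw [h, Function.update_self]
    have : t = m.unpair.2 := by
      have := congrArg (fun k => (Nat.unpair k).2) h
      simpa [Nat.unpair_pair] using this
    rw [this]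
  · rw [Function.update_of_ne h]
    exact hβ t (lt_of_le_of_ne (Nat.lt_succ_iff.1 ht) h)

theorem sep_step {Z : Type} [MeasurableSpace Z] (g : ℕ → (ℕ → ℕ) → Z) (α : ℕ → ℕ) (m : ℕ)
    (h : ¬ Sep fun i => g i '' Cyl α m i) :
    ∃ d, ¬ Sep fun i => g i '' Cyl (Function.update α m d) (m + 1) i := by
  by_contra hcon
  push Not at hcon
  apply h
  refine Sep.union _ m.unpair.1
    (fun d => g m.unpair.1 '' Cyl (Function.update α m d) (m + 1) m.unpair.1) ?_ ?_
  · rw [← image_iUnion]
    exact image_mono Cyl_step_eq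
  · intro d
    refine (hcon d).mono fun i => ?_
    by_cases hi : i = m.unpair.1
    · subst hi
      rw [Function.update_self]
    · rw [Function.update_of_ne hi, Cyl_step_ne hi]

theorem exists_limit {Z : Type} [MeasurableSpace Z] (g : ℕ → (ℕ → ℕ) → Z)
    (h : ¬ Sep fun i => range (g i)) :
    ∃ α : ℕ → ℕ, ∀ m, ¬ Sep fun i => g i '' Cyl α m i := by
  classical
  have hstep : ∀ (α : ℕ → ℕ) (m : ℕ), ∃ d, (¬ Sep fun i => g i '' Cyl α m i) →
      ¬ Sep fun i => g i '' Cyl (Function.update α m d) (m + 1) i := by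
    intro α m
    by_cases hs : Sep fun i => g i '' Cyl α m i
    · exact ⟨0, fun hn => (hn hs).elim⟩
    · obtain ⟨d, hd⟩ := sep_step g α m hs
      exact ⟨d, fun _ => hd⟩
  choose D hD using hstep
  let s : ℕ → (ℕ → ℕ) := fun n => Nat.rec (fun _ => 0) (fun m a => Function.update a m (D a m)) n
  have hs0 : s 0 = fun _ => 0 := rfl
  have hs1 : ∀ m, s (m + 1) = Function.update (s m) m (D (s m) m) := fun m => rfl
  have hnot : ∀ m, ¬ Sep fun i => g i '' Cyl (s m) m i := by
    intro m
    induction m with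
    | zero =>
      intro hsep
      apply h
      refine hsep.mono fun i => ?_
      rintro _ ⟨β, rfl⟩
      exact ⟨β, fun t ht => absurd ht (Nat.not_lt_zero _), rfl⟩
    | succ m ih =>
      rw [hs1]
      exact hD _ _ ih
  have hagree : ∀ m n t, t < m → m ≤ n → s n t = s m t := by
    intro m n t htm hmn
    induction n, hmn using Nat.le_induction with
    | base => rfl
    | succ n hmn ih =>
      rw [hs1, Function.update_of_ne (ne_of_lt (lt_of_lt_of_le htm hmn)), ih]
  refine ⟨fun t => s (t + 1) t, fun m => ?_⟩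
  have : ∀ i, Cyl (fun t => s (t + 1) t) m i = Cyl (s m) m i := by
    intro i
    apply Cyl_congr
    intro t ht
    exact (hagree (t + 1) m t (Nat.lt_succ_self t) ht).symm
  simp only [this]
  exact hnot m

/-- Novikov's separation theorem for ranges. -/
theorem sep_range {Z : Type} [TopologicalSpace Z] [T2Space Z] [MeasurableSpace Z]
    [OpensMeasurableSpace Z] (g : ℕ → (ℕ → ℕ) → Z) (hg : ∀ i, Continuous (g i))
    (h : ⋂ i, range (g i) = ∅) : Sep fun i => range (g i) := by
  classical
  by_contra hcon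
  obtain ⟨α, hα⟩ := exists_limit g hcon
  let β : ℕ → ℕ → ℕ := fun i t => α (Nat.pair i t)
  have hloc : ∀ (i : ℕ) (U : Set Z), IsOpen U → g i (β i) ∈ U →
      ∃ m, ∀ n, m ≤ n → g i '' Cyl α n i ⊆ U := by
    intro i U hU hm
    have ho : IsOpen (g i ⁻¹' U) := hU.preimage (hg i)
    obtain ⟨v, ⟨x, N, rfl⟩, hxv, hv⟩ := (PiNat.isTopologicalBasis_cylinders
      (fun _ : ℕ => ℕ)).exists_subset_of_mem_open (show β i ∈ g i ⁻¹' U from hm) ho
    refine ⟨Nat.pair i N, fun n hn => ?_⟩
    rintro _ ⟨γ, hγ, rfl⟩
    apply hv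
    rw [PiNat.mem_cylinder_iff] at hxv ⊢
    intro t ht
    rw [← hxv t ht]
    exact hγ t (lt_of_lt_of_le (Nat.pair_lt_pair_right i ht) hn)
  have hne : ∃ i, g i (β i) ≠ g 0 (β 0) := by
    by_contra hall
    push Not at hall
    have : g 0 (β 0) ∈ ⋂ i, range (g i) := mem_iInter.2 fun i => ⟨β i, hall i⟩
    rw [h] at this
    exact this
  obtain ⟨i, hi⟩ := hne
  obtain ⟨U, V, hU, hV, hUm, hVm, hUV⟩ := t2_separation hi
  obtain ⟨m1, h1⟩ := hloc i U hU hUm
  obtain ⟨m2, h2⟩ := hloc 0 V hV hVm
  have hi0 : i ≠ 0 := fun h0 => hi (by rw [h0])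
  apply hα (max m1 m2)
  refine ⟨fun j => if j = i then U else if j = 0 then V else univ, ?_, ?_, ?_⟩
  · intro j
    by_cases hj : j = i
    · simp only [hj, if_true]; exact hU.measurableSet
    · by_cases hj0 : j = 0
      · simp only [hj0, hi0.symm, if_true, if_false]; exact hV.measurableSet
      · simp only [hj, hj0, if_false]; exact MeasurableSet.univ
  · intro j
    by_cases hj : j = i
    · simp only [hj, if_true]; exact h1 _ (le_max_left _ _)
    · by_cases hj0 : j = 0
      · simp only [hj0, hi0.symm, if_true, if_false]; exact h2 _ (le_max_right _ _)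
      · simp only [hj, hj0, if_false]; exact subset_univ _
  · apply eq_empty_of_forall_notMem
    intro z hz
    rw [mem_iInter] at hz
    have hz1 := hz i
    have hz2 := hz 0
    simp only [if_true] at hz1
    simp only [hi0.symm, if_true, if_false] at hz2
    exact (disjoint_left.1 hUV) hz1 hz2

/-- Novikov's separation theorem. -/
theorem sep_analytic {Z : Type} [TopologicalSpace Z] [T2Space Z] [MeasurableSpace Z]
    [OpensMeasurableSpace Z] (S : ℕ → Set Z) (hS : ∀ i, AnalyticSet (S i))
    (h : ⋂ i, S i = ∅) : Sep S := by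
  classical
  by_cases he : ∃ i, S i = ∅
  · obtain ⟨i, hi⟩ := he
    refine ⟨fun j => if j = i then ∅ else univ, ?_, ?_, ?_⟩
    · intro j
      by_cases hj : j = i
      · simp only [hj, if_true]; exact MeasurableSet.empty
      · simp only [hj, if_false]; exact MeasurableSet.univ
    · intro j
      by_cases hj : j = i
      · simp only [hj, if_true]; rw [hi]
      · simp only [hj, if_false]; exact subset_univ _
    · apply eq_empty_of_forall_notMem
      intro z hz
      have := (mem_iInter.1 hz) i
      simp at this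
  · push Not at he
    have : ∀ i, ∃ f : (ℕ → ℕ) → Z, Continuous f ∧ range f = S i := by
      intro i
      have hi := hS i
      rw [AnalyticSet] at hi
      rcases hi with hi | hi
      · exact absurd hi (he i).ne_empty
      · exact hi
    choose g hg hr using this
    have h' : ⋂ i, range (g i) = ∅ := by simpa only [hr] using h
    have := sep_range g hg h'
    simpa only [hr] using this

/-- A countable cover by co-analytic sets is refined by a measurable cover. -/
theorem exists_measurable_cover {Z : Type} [TopologicalSpace Z] [T2Space Z] [MeasurableSpace Z]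
    [OpensMeasurableSpace Z] (Q : ℕ → Set Z) (hQ : ∀ i, AnalyticSet (Q i)ᶜ)
    (h : ⋃ i, Q i = univ) :
    ∃ R : ℕ → Set Z, (∀ i, MeasurableSet (R i)) ∧ (∀ i, R i ⊆ Q i) ∧ ⋃ i, R i = univ := by
  have h1 : ⋂ i, (Q i)ᶜ = ∅ := by rw [← compl_iUnion, h, compl_univ]
  obtain ⟨B, hB, hS, hI⟩ := sep_analytic (fun i => (Q i)ᶜ) hQ h1
  refine ⟨fun i => (B i)ᶜ, fun i => (hB i).compl, fun i => ?_, ?_⟩
  · rw [compl_subset_comm]; exact hS i
  · rw [← compl_iInter, hI, compl_empty]

end Pool.Agent.Helper83.BB
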