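import Pool.Agent.Helper83.BB.Code
import Pool.Agent.Helper83.BB.Nov

set_option autoImplicit false

open Set Filter Topology MeasureTheory

namespace Pool.Agent.Helper83.BB

/-- A Borel function that is locally bounded in the second variable is bounded on the pieces of a
countable cover by measurable rectangles. -/
theorem rect_cover {X Y : Type} [MeasurableSpace X] [StandardBorelSpace X] [TopologicalSpace Y]
    [PolishSpace Y] [MeasurableSpace Y] [BorelSpace Y] [Nonempty Y] (h : X × Y → ℕ)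
    (hm : Measurable h)
    (hloc : ∀ (x : X) (y : Y), ∃ U ∈ 𝓝 y, ∃ k : ℕ, ∀ z ∈ U, h (x, z) ≤ k) :
    ∃ (A : ℕ → Set X) (B : ℕ → Set Y),
      (∀ j, MeasurableSet (A j)) ∧ (∀ j, MeasurableSet (B j)) ∧
      (∀ p : X × Y, ∃ j, p.1 ∈ A j ∧ p.2 ∈ B j) ∧
      (∀ j, ∃ k : ℕ, ∀ p : X × Y, p.1 ∈ A j → p.2 ∈ B j → h p ≤ k) := by
  classical
  obtain ⟨mX, _, _, _, -⟩ := exists_metric (X := X) (fun _ => ∅) (fun _ => MeasurableSet.empty)
  have : PolishSpace X := inferInstance
  obtain ⟨b, hbc, -, hb⟩ := TopologicalSpace.exists_countable_basis Y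
  have hbne : b.Nonempty := by
    obtain ⟨y⟩ := (inferInstance : Nonempty Y)
    have : y ∈ ⋃₀ b := by rw [hb.sUnion_eq]; exact mem_univ y
    obtain ⟨s, hs, -⟩ := this
    exact ⟨s, hs⟩
  obtain ⟨s, rfl⟩ := hbc.exists_eq_range hbne
  have hso : ∀ j, IsOpen (s j) := fun j => hb.isOpen ⟨j, rfl⟩
  let C : ℕ → Set X := fun i =>
    Prod.fst '' {p : X × Y | p.2 ∈ s i.unpair.1 ∧ i.unpair.2 < h p}
  have hC : ∀ i, AnalyticSet (C i) := by
    intro i
    refine MeasurableSet.analyticSet_image ?_ measurable_fst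
    exact (measurable_snd (hso _).measurableSet).inter (measurableSet_lt measurable_const hm)
  let Q : ℕ → Set (X × Y) := fun i => {p | p.2 ∈ s i.unpair.1 ∧ p.1 ∉ C i}
  have hQ : ∀ i, AnalyticSet (Q i)ᶜ := by
    intro i
    have : (Q i)ᶜ = ⋃ c : Bool, (if c then {p : X × Y | p.2 ∈ s i.unpair.1}ᶜ
        else Prod.fst ⁻¹' C i) := by
      ext p
      simp only [Q, mem_compl_iff, mem_ofPred_eq, mem_iUnion, Bool.exists_bool]
      simp only [Bool.false_eq_true, if_false, if_true, mem_preimage, mem_compl_iff, mem_ofPred_eq]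
      tauto
    rw [this]
    refine AnalyticSet.iUnion fun c => ?_
    cases c with
    | false =>
      simp only [Bool.false_eq_true, if_false]
      exact (hC i).preimage continuous_fst
    | true =>
      simp only [if_true]
      exact ((measurable_snd (hso _).measurableSet).compl : MeasurableSet _).analyticSet
  have hcov : ⋃ i, Q i = univ := by
    refine eq_univ_of_forall fun p => ?_
    obtain ⟨U, hU, k, hk⟩ := hloc p.1 p.2
    obtain ⟨v, ⟨j, rfl⟩, hpv, hvU⟩ := hb.mem_nhds_iff.1 hU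
    refine mem_iUnion.2 ⟨Nat.pair j k, ?_, ?_⟩
    · rw [Nat.unpair_pair]; exact hpv
    · rintro ⟨q, ⟨hq1, hq2⟩, hq3⟩
      rw [Nat.unpair_pair] at hq1 hq2
      have h1 := hk q.2 (hvU hq1)
      have h2 : (p.1, q.2) = q := by rw [← hq3]
      rw [h2] at h1
      exact absurd h1 (not_le.2 hq2)
  obtain ⟨R, hR, hRQ, hRcov⟩ := exists_measurable_cover Q hQ hcov
  have hsep : ∀ i, MeasurablySeparable (Prod.fst '' R i) (C i) := by
    intro i
    refine AnalyticSet.measurablySeparable ?_ (hC i) ?_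
    · exact (hR i).analyticSet_image measurable_fst
    · rw [Set.disjoint_left]
      rintro _ ⟨p, hp, rfl⟩ hpC
      exact (hRQ i hp).2 hpC
  choose A hA1 hA2 hA3 using hsep
  refine ⟨A, fun i => s i.unpair.1, hA3, fun i => (hso _).measurableSet, ?_, ?_⟩
  · intro p
    have hp : p ∈ ⋃ i, R i := by rw [hRcov]; exact mem_univ p
    obtain ⟨i, hi⟩ := mem_iUnion.1 hp
    exact ⟨i, hA1 i ⟨p, hi, rfl⟩, (hRQ i hi).1⟩
  · intro i
    refine ⟨i.unpair.2, fun p h1 h2 => ?_⟩
    by_contra hlt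
    exact (Set.disjoint_left.1 (hA2 i)) ⟨p, ⟨h2, not_le.1 hlt⟩, rfl⟩ h1

end Pool.Agent.Helper83.BB
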